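import Pool.Agent.Q240.EW.Stm
import Pool.Agent.Q123.PR.TrX
import Pool.Agent.Q214.PR.SmA
import Pool.Agent.Y23.Z.F1

/-!
# Project EW (helper240): the trial functions, shifted and of finite degree (JOB EW-GN)
-/

set_option autoImplicit false
set_option maxHeartbeats 2000000

open Complex Filter Topology Set MeasureTheory
open Pool.Agent.H24R2.JP (XX)
open Pool.Agent.Q240.PR (Sm)
open Pool.Agent.Q123.PR

namespace Pool.Agent.Q79.EW

open Pool.Agent.Y23 (TT Fa AK uK tK Fa_uK TT_uK tK_bound exists_pσ)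
open Pool.Agent.Y23.G.F (Hn nd)
open Pool.Agent.Q240.EW

/-- a bump function is smooth with compact support -/
lemma bump_sm {ψ : ℝ → ℝ} (hψ : Bump ψ) : Sm 1 (fun x => (ψ x : ℂ)) :=
  ⟨fun k => Complex.ofRealCLM.contDiff.comp (hψ.smooth k), fun x hx => by
    change (ψ x : ℂ) = 0
    rw [hψ.supp x hx, Complex.ofReal_zero]⟩

/-- decay of the transform of a bump function -/
lemma Ps_decay {ψ : ℝ → ℝ} (hψ : Bump ψ) : ∃ C : ℝ, 0 < C ∧ ∀ w : ℂ, |w.re| ≤ 1 → ‖Ps ψ w‖ ≤ C / (1 + ‖w‖) ^ 6 := by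
  obtain ⟨C, hC, h⟩ := Pool.Agent.Q214.PR.Sm.decay one_pos (bump_sm hψ) 6
  refine ⟨C + 1, by linarith, fun w hw => (h w hw).trans ?_⟩
  exact div_le_div_of_nonneg_right (by linarith) (by positivity)

/-- the scaled bump function -/
lemma scaled {ψ : ℝ → ℝ} (hψ : Bump ψ) {r : ℝ} (hr : 0 < r) : ∃ k : ℝ → ℂ, Fa r k ∧ (∃ M : ℝ, ∀ x, ‖k x‖ ≤ M) ∧
    ∀ w : ℂ, TT k w = Ps ψ ((r : ℂ) * w) := by
  have hs : Sm r (fun x => ((r⁻¹ * ψ (x / r) : ℝ) : ℂ)) := by
    refine ⟨fun k => ?_, fun x hx => ?_⟩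
    · have h1 : ContDiff ℝ k fun x : ℝ => r⁻¹ * ψ (x / r) :=
        contDiff_const.mul ((hψ.smooth k).comp (contDiff_id.div_const r))
      exact Complex.ofRealCLM.contDiff.comp h1
    · have : 1 ≤ |x / r| := by
        rw [abs_div, abs_of_pos hr, one_le_div hr]
        exact hx
      change ((r⁻¹ * ψ (x / r) : ℝ) : ℂ) = 0
      rw [hψ.supp _ this, mul_zero, Complex.ofReal_zero]
  obtain ⟨M, hM⟩ := (Pool.Agent.Q214.PR.Sm.hcs hs).exists_bound_of_continuous (hs.1 0).continuous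
  refine ⟨_, Pool.Agent.Q214.PR.Sm.fa hs, ⟨M, hM⟩, fun w => ?_⟩
  have hrC : (r : ℂ) ≠ 0 := by exact_mod_cast hr.ne'
  have h := MeasureTheory.Measure.integral_comp_div (fun y : ℝ => (ψ y : ℂ) * cexp ((r : ℂ) * w * y)) r
  unfold Ps TT
  have e1 : (fun x : ℝ => ((r⁻¹ * ψ (x / r) : ℝ) : ℂ) * cexp (w * x)) = fun x : ℝ => (r : ℂ)⁻¹ *
      ((ψ (x / r) : ℂ) * cexp ((r : ℂ) * w * ((x / r : ℝ) : ℂ))) := by
    funext x
    have e2 : (r : ℂ) * w * ((x / r : ℝ) : ℂ) = w * x := by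
      push_cast
      field_simp
    rw [e2]
    push_cast
    ring
  rw [e1, integral_const_mul, h, abs_of_pos hr, Complex.real_smul, ← mul_assoc, inv_mul_cancel₀ hrC, one_mul]

/-- modulation -/
lemma modul {a : ℝ} {f : ℝ → ℂ} (hf : Fa a f) (t : ℝ) : Fa a (fun x => f x * cexp (((-(t * x) : ℝ) : ℂ) * I)) ∧
    ∀ w : ℂ, TT (fun x => f x * cexp (((-(t * x) : ℝ) : ℂ) * I)) w = TT f (w - t * I) := by
  refine ⟨⟨?_, fun x hx => by
    change f x * cexp (((-(t * x) : ℝ) : ℂ) * I) = 0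
    rw [hf.2 x hx, zero_mul]⟩, fun w => ?_⟩
  · refine MemLp.of_le hf.1 (hf.1.1.mul (by fun_prop : Continuous fun x : ℝ => cexp (((-(t * x) : ℝ) : ℂ) * I)).aestronglyMeasurable) ?_
    refine Eventually.of_forall fun x => ?_
    rw [norm_mul, Complex.norm_exp_ofReal_mul_I, mul_one]
  · unfold TT
    congr 1
    funext x
    rw [mul_assoc, ← Complex.exp_add]
    congr 2
    push_cast
    ring

/-- the decay of the main part on the line -/
lemma main_line {ψ : ℝ → ℝ} (hψ : Bump ψ) {p : ℝ} (hp0 : 0 < p) (hp : p < Real.pi / 2) : ∃ C c1 : ℝ, 0 < C ∧ 0 < c1 ∧ c1 ≤ 1 ∧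
    ∀ (s b v : ℝ), (∀ M : ℝ, (∀ φ : ℝ, |φ| ≤ p → 2 * Real.pi * Real.exp (2 * b) * (Real.cos φ - 1) + |v| * φ / 2 ≤ M + |v| * p / 2) →
      ‖Pb ψ s p b (v * I)‖ ≤ C * (Real.exp (2 * Real.pi * Real.exp (2 * b)) * Real.exp M) * Real.exp (-(c1 * |v|))) := by
  have hpi := Real.pi_pos
  have hpi4 := Real.pi_lt_d2
  set φ0 : ℝ := (p / 2 + Real.pi / 4) / 2 with hφ
  obtain ⟨CX, hCX0, hCX⟩ := Pool.Agent.Y23.Z.XX_decay (φ := φ0) (by rw [hφ]; linarith) (by rw [hφ]; linarith)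
  obtain ⟨CP, hCP, hP⟩ := Ps_decay hψ
  refine ⟨2 * p * (CX / 8) * CP, φ0 - p / 2, by positivity, by rw [hφ]; linarith, by rw [hφ]; linarith, fun s b v M hM => ?_⟩
  set L := Real.exp (2 * b) with hL
  have h1 := Pool.Agent.Y23.Z.AK_le (L := L) hp0.le v hM
  have h2 := hCX v
  have h3 : ‖Ps ψ (((s * Real.exp (-(2 * b)) : ℝ) : ℂ) * (v * I))‖ ≤ CP := by
    have e : (((s * Real.exp (-(2 * b)) : ℝ) : ℂ) * ((v : ℂ) * I)).re = 0 := by
      rw [Complex.re_ofReal_mul]
      simp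
    refine (hP _ (by rw [e]; norm_num)).trans ?_
    refine div_le_self hCP.le ?_
    exact one_le_pow₀ (by linarith [norm_nonneg (((s * Real.exp (-(2 * b)) : ℝ) : ℂ) * ((v : ℂ) * I))])
  unfold Pb
  rw [norm_mul, norm_mul, norm_div]
  have e8 : ‖(8 : ℂ)‖ = 8 := by norm_num
  rw [e8]
  calc ‖AK L p (v * I)‖ * (‖XX (v * I)‖ / 8) * ‖Ps ψ (((s * Real.exp (-(2 * b)) : ℝ) : ℂ) * (v * I))‖ ≤
        (2 * p * (Real.exp (2 * Real.pi * L) * Real.exp (M + |v| * p / 2))) * (CX * Real.exp (-(φ0 * |v|)) / 8) * CP := by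
        gcongr
    _ = 2 * p * (CX / 8) * CP * (Real.exp (2 * Real.pi * L) * Real.exp M) * (Real.exp (|v| * p / 2) * Real.exp (-(φ0 * |v|))) := by
        rw [Real.exp_add]
        ring
    _ = _ := by
        have e : Real.exp (|v| * p / 2) * Real.exp (-(φ0 * |v|)) = Real.exp (-((φ0 - p / 2) * |v|)) := by
          rw [← Real.exp_add]
          congr 1
          ring
        rw [e]

/-- the exponent for all points -/
lemma expo_all {p L v : ℝ} (hL : 0 ≤ L) (φ : ℝ) (hφ : |φ| ≤ p) :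
    2 * Real.pi * L * (Real.cos φ - 1) + |v| * φ / 2 ≤ 0 + |v| * p / 2 := by
  have h1 : 2 * Real.pi * L * (Real.cos φ - 1) ≤ 0 :=
    mul_nonpos_of_nonneg_of_nonpos (by positivity) (by linarith [Real.cos_le_one φ])
  have h2 : |v| * φ ≤ |v| * p := mul_le_mul_of_nonneg_left ((le_abs_self φ).trans hφ) (abs_nonneg _)
  linarith

/-- the exponent for the large points -/
lemma expo_large {p L v : ℝ} (hL : 0 ≤ L) (hv : 4 * Real.pi * L ≤ |v|) (φ : ℝ) (hφ : |φ| ≤ p) :
    2 * Real.pi * L * (Real.cos φ - 1) + |v| * φ / 2 ≤ 2 * Real.pi * L * (Real.cos p - 1) + |v| * p / 2 := by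
  have hpi := Real.pi_pos
  have h1 : Real.cos φ - Real.cos p ≤ p - |φ| := by
    rw [← Real.cos_abs φ]
    refine (le_abs_self _).trans ((Real.abs_cos_sub_cos_le _ _).trans ?_)
    rw [abs_sub_comm, abs_of_nonneg (by linarith)]
  have h2 : 2 * Real.pi * L * (Real.cos φ - Real.cos p) ≤ 2 * Real.pi * L * (p - |φ|) :=
    mul_le_mul_of_nonneg_left h1 (by positivity)
  have h3 : 2 * Real.pi * L * (p - |φ|) ≤ |v| / 2 * (p - |φ|) :=
    mul_le_mul_of_nonneg_right (by linarith) (by linarith)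
  have h4 : |v| * φ ≤ |v| * |φ| := mul_le_mul_of_nonneg_left (le_abs_self φ) (abs_nonneg _)
  linarith

/-- JOB EW-GN -/
theorem gn : S_Gn := by
  intro ψ s q ε hψ hs hq hε
  obtain ⟨hs0, hs1, -⟩ := hs
  have hpi := Real.pi_pos
  have hpi4 := Real.pi_lt_d2
  set e' : ℝ := ε / 8 with he'
  have he0 : 0 < e' := by positivity
  obtain ⟨p, σ, hqp, hp, hσ, hps⟩ := exists_pσ (ε := e' / (2 * Real.pi)) (q := max q 0) (by positivity) (max_lt hq (by positivity))
  have hp0 : 0 < p := lt_of_le_of_lt (le_max_right _ _) hqp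
  have hcp : 0 < Real.cos p := Real.cos_pos_of_mem_Ioo ⟨by linarith, hp⟩
  have hce : Real.cos p + Real.exp (-σ) < e' / (2 * Real.pi) := hps
  have hc2 : 2 * Real.pi * Real.cos p ≤ e' := by
    have h1 : Real.cos p ≤ e' / (2 * Real.pi) := by
      have := Real.exp_pos (-σ)
      linarith
    calc 2 * Real.pi * Real.cos p ≤ 2 * Real.pi * (e' / (2 * Real.pi)) := mul_le_mul_of_nonneg_left h1 (by positivity)
      _ = e' := by field_simp
  obtain ⟨K, hK, hkt⟩ := tK_bound hp0.le hp hσ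
  obtain ⟨CP, hCP, hPs⟩ := Ps_decay hψ
  obtain ⟨CM, c1, hCM, hc10, hc11, hMain⟩ := main_line hψ hp0 hp
  refine ⟨p, lt_of_le_of_lt (le_max_left _ _) hqp, hp0, hp, fun δ hδ => ?_⟩
  set κ : ℝ := Real.exp (-(2 * δ)) with hκ
  have hκ0 : 0 < κ := Real.exp_pos _
  have hκ1 : κ ≤ 1 := Real.exp_le_one_iff.2 (by linarith)
  set c2 : ℝ := c1 * κ with hc2'
  have hc20 : 0 < c2 := by positivity
  have hc21 : c2 ≤ 1 := by nlinarith
  set K6 : ℝ := (12 / (2 * c2)) ^ 6 with hK6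
  have hK60 : 0 < K6 := by positivity
  have hpow : ∀ v : ℝ, Real.exp (-(c2 * |v|)) ≤ K6 / (1 + |v|) ^ 6 := by
    intro v
    have h1 := pow6_le (c := 2 * c2) (by positivity) (by linarith) (abs_nonneg v)
    have e : 2 * c2 * |v| / 2 = c2 * |v| := by ring
    rw [e] at h1
    rw [le_div_iff₀ (by positivity), Real.exp_neg, inv_mul_eq_div, div_le_iff₀ (Real.exp_pos _)]
    exact h1
  -- large `a`
  have hA1 := Pool.Agent.Y23.absorb (K * CP * (1 / s) ^ 6 * 14 ^ 6) 30 0 (ε := e') he0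
  have hA2 := absorb0 (CM * K6) he0
  have hA3 := absorb' (32 * K0) he0
  have hA4 := absorb0 2 he0
  have hA5 : ∀ᶠ a : ℝ in atTop, s / δ ≤ Real.exp (2 * (a - δ)) := by
    have h1 : Tendsto (fun a : ℝ => Real.exp (2 * (a - δ))) atTop atTop :=
      Real.tendsto_exp_atTop.comp (Tendsto.const_mul_atTop (by norm_num) (tendsto_atTop_add_const_right _ _ tendsto_id))
    exact h1.eventually_ge_atTop _
  obtain ⟨A, hA⟩ := eventually_atTop.1 (hA1.and (hA2.and (hA3.and (hA4.and (hA5.and (eventually_ge_atTop (δ + 1)))))))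
  refine ⟨A, fun a n t ha hn ht => ?_⟩
  obtain ⟨h1, h2, h3, h4, h5, h6⟩ := hA a ha
  rw [pow_zero, mul_one] at h1
  set X := Real.exp (2 * a) with hX
  have hX0 : 0 < X := Real.exp_pos _
  have ha1 : 1 ≤ a := by linarith
  have ha0 : 0 < a := by linarith
  have hX1 : 1 ≤ X := Real.one_le_exp (by linarith)
  set b := a - δ with hb
  have hb0 : 0 ≤ b := by linarith
  set L := Real.exp (2 * b) with hL
  have hL0 : 0 < L := Real.exp_pos _
  have hL1 : 1 ≤ L := Real.one_le_exp (by linarith)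
  have hLX : L = X * κ := by
    rw [hL, hX, hκ, ← Real.exp_add]
    congr 1
    rw [hb]
    ring
  have hLX1 : L ≤ X := by
    rw [hLX]
    nlinarith
  -- the scale
  set r : ℝ := s * Real.exp (-(2 * b)) with hr
  have hr0 : 0 < r := by positivity
  have hrL : r = s / L := by rw [hr, hL, Real.exp_neg]; rfl
  have hr1 : r ≤ 1 := by
    rw [hrL, div_le_one hL0]
    linarith
  have hrδ : r ≤ δ := by
    rw [hrL, div_le_iff₀ hL0]
    rw [div_le_iff₀ hδ] at h5
    linarith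
  -- the function
  obtain ⟨k, hk1, ⟨Mk, hk2⟩, hk3⟩ := scaled hψ hr0
  obtain ⟨g, hg1, hg2⟩ := Pool.Agent.Y23.G.conv_TT (Fa_uK (L := L) (b := b) hp0.le hp) hk1 hk2
  have hga : Fa a g := ⟨hg1.1, fun x hx => hg1.2 x (by linarith)⟩
  have hgT : ∀ w, TT g w = Pb ψ s p b w - tK L p b w * Ps ψ ((r : ℂ) * w) := by
    intro w
    rw [hg2, TT_uK hL0 hp0.le hp, hk3]
    unfold Pb
    ring
  obtain ⟨hT1, hT2⟩ := modul hga t
  set T := fun x => g x * cexp (((-(t * x) : ℝ) : ℂ) * I) with hT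
  -- the error
  have ht14 : 1 + |t| ≤ 14 * X := by
    have h7 : |t| ≤ 4 * Real.pi * X := by
      refine ht.trans ?_
      have : 4 * Real.pi * (1 - κ) ≤ 4 * Real.pi := by nlinarith
      exact mul_le_mul_of_nonneg_right this hX0.le
    nlinarith
  have hErr : ∀ w : ℂ, |w.re| ≤ 1 → ‖TT T w - Pb ψ s p b (w - t * I)‖ ≤ Real.exp (2 * e' * X) / (1 + ‖w‖) ^ 6 := by
    intro w hw
    set z := w - t * I with hz
    have hzre : z.re = w.re := by rw [hz]; simp
    rw [hT2, hgT, sub_sub_cancel_left, norm_neg, norm_mul]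
    have k1 := hkt b hb0 z (by rw [hzre]; exact hw)
    rw [← hL] at k1
    have k2 : Real.exp (Real.pi * L * (Real.cos p + Real.exp (-σ))) ≤ Real.exp (e' * X) := by
      refine Real.exp_le_exp.2 ?_
      calc Real.pi * L * (Real.cos p + Real.exp (-σ)) ≤ Real.pi * L * (e' / (2 * Real.pi)) :=
            mul_le_mul_of_nonneg_left hce.le (by positivity)
        _ = e' / 2 * L := by field_simp
        _ ≤ e' * X := by nlinarith
    have k3 : ‖Ps ψ ((r : ℂ) * z)‖ ≤ CP * ((1 / s) ^ 6 * Real.exp (12 * a)) * ((14 ^ 6 * Real.exp (12 * a)) / (1 + ‖w‖) ^ 6) := by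
      have hre : |((r : ℂ) * z).re| ≤ 1 := by
        rw [Complex.re_ofReal_mul, abs_mul, abs_of_pos hr0, hzre]
        exact mul_le_one₀ hr1 (abs_nonneg _) hw
      refine (hPs _ hre).trans ?_
      rw [norm_mul, Complex.norm_real, Real.norm_of_nonneg hr0.le]
      have i1 : r * (1 + ‖z‖) ≤ 1 + r * ‖z‖ := by nlinarith
      have i2 : (1 + ‖w‖) ≤ 14 * X * (1 + ‖z‖) := by
        have : ‖w‖ ≤ ‖z‖ + |t| := by
          have h7 : w = z + t * I := by rw [hz]; ring
          calc ‖w‖ = ‖z + t * I‖ := by rw [← h7]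
            _ ≤ ‖z‖ + ‖(t : ℂ) * I‖ := norm_add_le _ _
            _ = ‖z‖ + |t| := by rw [norm_mul, Complex.norm_I, mul_one, Complex.norm_real, Real.norm_eq_abs]
        have h8 := norm_nonneg z
        calc 1 + ‖w‖ ≤ (1 + |t|) * (1 + ‖z‖) := by nlinarith [abs_nonneg t]
          _ ≤ _ := mul_le_mul_of_nonneg_right ht14 (by positivity)
      have i3 : (s / X) * (1 + ‖w‖) ≤ (14 * X) * (1 + r * ‖z‖) := by
        have i4 : s / X ≤ r := by
          rw [hrL]
          exact div_le_div_of_nonneg_left hs0.le hL0 hLX1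
        calc (s / X) * (1 + ‖w‖) ≤ r * (14 * X * (1 + ‖z‖)) := mul_le_mul i4 i2 (by positivity) hr0.le
          _ = 14 * X * (r * (1 + ‖z‖)) := by ring
          _ ≤ _ := mul_le_mul_of_nonneg_left i1 (by positivity)
      have i5 := pow_le_pow_left₀ (by positivity) i3 6
      have i6 : X ^ 6 = Real.exp (12 * a) := by
        rw [hX, ← Real.exp_nat_mul]
        congr 1
        push_cast
        ring
      rw [mul_pow, mul_pow (14 * X), div_pow, mul_pow 14, i6] at i5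
      rw [div_le_iff₀ (by positivity)]
      have i7 : (1 + ‖w‖) ^ 6 ≤ ((1 / s) ^ 6 * Real.exp (12 * a)) * (14 ^ 6 * Real.exp (12 * a) * (1 + r * ‖z‖) ^ 6) := by
        have i8 : (1 + ‖w‖) ^ 6 = ((1 / s) ^ 6 * Real.exp (12 * a)) * (s ^ 6 / Real.exp (12 * a) * (1 + ‖w‖) ^ 6) := by
          field_simp
        rw [i8]
        exact mul_le_mul_of_nonneg_left i5 (by positivity)
      have hw6 : 0 < (1 + ‖w‖) ^ 6 := by positivity
      calc CP = CP * 1 := (mul_one _).symm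
        _ ≤ CP * (((1 / s) ^ 6 * Real.exp (12 * a)) * (14 ^ 6 * Real.exp (12 * a) * (1 + r * ‖z‖) ^ 6) / (1 + ‖w‖) ^ 6) := by
            refine mul_le_mul_of_nonneg_left ?_ hCP.le
            rw [le_div_iff₀ hw6, one_mul]
            exact i7
        _ = _ := by ring
    have k4 : Real.exp (6 * b) ≤ Real.exp (6 * a) := Real.exp_le_exp.2 (by linarith)
    calc ‖tK L p b z‖ * ‖Ps ψ ((r : ℂ) * z)‖ ≤ (K * Real.exp (6 * a) * Real.exp (e' * X)) *
          (CP * ((1 / s) ^ 6 * Real.exp (12 * a)) * ((14 ^ 6 * Real.exp (12 * a)) / (1 + ‖w‖) ^ 6)) := by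
          refine mul_le_mul (k1.trans ?_) k3 (norm_nonneg _) (by positivity)
          gcongr
      _ = (K * CP * (1 / s) ^ 6 * 14 ^ 6 * (Real.exp (6 * a) * Real.exp (12 * a) * Real.exp (12 * a))) * Real.exp (e' * X) /
          (1 + ‖w‖) ^ 6 := by ring
      _ = (K * CP * (1 / s) ^ 6 * 14 ^ 6 * Real.exp (30 * a)) * Real.exp (e' * X) / (1 + ‖w‖) ^ 6 := by
          rw [← Real.exp_add, ← Real.exp_add]
          congr 4
          ring
      _ ≤ Real.exp (e' * X) * Real.exp (e' * X) / (1 + ‖w‖) ^ 6 := by gcongr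
      _ = _ := by
          rw [← Real.exp_add]
          congr 2
          ring
  -- the line
  have hline : ∀ v : ℝ, (v : ℂ) * I - t * I = ((v - t : ℝ) : ℂ) * I := fun v => by push_cast; ring
  have hvn : ∀ v : ℝ, ‖(v : ℂ) * I‖ = |v| := fun v => by
    rw [norm_mul, Complex.norm_I, mul_one, Complex.norm_real, Real.norm_eq_abs]
  have hTl : ∀ v : ℝ, ‖TT T (v * I)‖ ≤ ‖Pb ψ s p b (((v - t : ℝ) : ℂ) * I)‖ + Real.exp (2 * e' * X) / (1 + |v|) ^ 6 := by
    intro v
    have i1 := hErr (v * I) (by simp)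
    rw [hline, hvn] at i1
    have i2 : TT T (v * I) = Pb ψ s p b (((v - t : ℝ) : ℂ) * I) + (TT T (v * I) - Pb ψ s p b (((v - t : ℝ) : ℂ) * I)) := by ring
    rw [i2]
    exact (norm_add_le _ _).trans (add_le_add le_rfl i1)
  have hM0 : 0 ≤ CM * Real.exp (2 * Real.pi * L) * Real.exp (c1 * |t|) * K6 + Real.exp (2 * e' * X) := by positivity
  have hM : ∀ v : ℝ, ‖TT T (v * I)‖ ≤ (CM * Real.exp (2 * Real.pi * L) * Real.exp (c1 * |t|) * K6 + Real.exp (2 * e' * X)) / (1 + |v|) ^ 6 := by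
    intro v
    refine (hTl v).trans ?_
    rw [add_div]
    refine add_le_add ?_ le_rfl
    have i1 := hMain s b (v - t) 0 (fun φ hφ => expo_all hL0.le φ hφ)
    rw [Real.exp_zero, mul_one, ← hL] at i1
    refine i1.trans ?_
    have i2 : Real.exp (-(c1 * |v - t|)) ≤ Real.exp (c1 * |t|) * Real.exp (-(c2 * |v|)) := by
      rw [← Real.exp_add]
      refine Real.exp_le_exp.2 ?_
      have i3 : |v| ≤ |v - t| + |t| := by
        have := abs_add_le (v - t) t
        rwa [sub_add_cancel] at this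
      have i4 : c2 * |v| ≤ c1 * |v| := by
        refine mul_le_mul_of_nonneg_right ?_ (abs_nonneg _)
        rw [hc2']
        nlinarith
      nlinarith
    calc CM * Real.exp (2 * Real.pi * L) * Real.exp (-(c1 * |v - t|)) ≤
          CM * Real.exp (2 * Real.pi * L) * (Real.exp (c1 * |t|) * (K6 / (1 + |v|) ^ 6)) := by
          refine mul_le_mul_of_nonneg_left (i2.trans ?_) (by positivity)
          exact mul_le_mul_of_nonneg_left (hpow v) (Real.exp_pos _).le
      _ = _ := by ring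
  have hδ' : ∀ k : ℤ, n < k.natAbs → ‖TT T (nd a k)‖ ≤ (2 * Real.exp (2 * e' * X)) / (1 + ‖nd a k‖) ^ 6 := by
    intro k hk
    set v : ℝ := Real.pi * k / a with hv
    have hnd : nd a k = (v : ℂ) * I := rfl
    have hnv : ‖nd a k‖ = |v| := norm_nd a k
    rw [hnv, hnd]
    have hvl : 4 * Real.pi * X ≤ |v| := by
      have i1 : 4 * a * X ≤ |(k : ℝ)| := by
        have i3 : (n : ℝ) ≤ (k.natAbs : ℝ) := by exact_mod_cast hk.le
        rw [Nat.cast_natAbs, Int.cast_abs] at i3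
        linarith
      rw [hv, abs_div, abs_mul, abs_of_pos Real.pi_pos, abs_of_pos ha0, le_div_iff₀ ha0]
      nlinarith
    have ht2 : |t| ≤ (1 - κ) * |v| := by
      calc |t| ≤ 4 * Real.pi * (1 - κ) * X := ht
        _ = (1 - κ) * (4 * Real.pi * X) := by ring
        _ ≤ _ := mul_le_mul_of_nonneg_left hvl (by linarith)
    have i3 : |v| ≤ |v - t| + |t| := by
      have := abs_add_le (v - t) t
      rwa [sub_add_cancel] at this
    have i4 : κ * |v| ≤ |v - t| := by linarith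
    have i5 : 4 * Real.pi * L ≤ |v - t| := by
      rw [hLX]
      calc 4 * Real.pi * (X * κ) = κ * (4 * Real.pi * X) := by ring
        _ ≤ κ * |v| := mul_le_mul_of_nonneg_left hvl hκ0.le
        _ ≤ _ := i4
    refine (hTl v).trans ?_
    have i6 := hMain s b (v - t) (2 * Real.pi * L * (Real.cos p - 1)) (fun φ hφ => expo_large hL0.le i5 φ hφ)
    rw [← hL, ← Real.exp_add] at i6
    have i7 : 2 * Real.pi * L + 2 * Real.pi * L * (Real.cos p - 1) = 2 * Real.pi * Real.cos p * L := by ring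
    rw [i7] at i6
    have i8 : Real.exp (2 * Real.pi * Real.cos p * L) ≤ Real.exp (e' * X) := by
      refine Real.exp_le_exp.2 ?_
      calc 2 * Real.pi * Real.cos p * L ≤ e' * L := mul_le_mul_of_nonneg_right hc2 hL0.le
        _ ≤ e' * X := mul_le_mul_of_nonneg_left hLX1 he0.le
    have i9 : Real.exp (-(c1 * |v - t|)) ≤ K6 / (1 + |v|) ^ 6 := by
      refine le_trans (Real.exp_le_exp.2 ?_) (hpow v)
      rw [hc2']
      have := mul_le_mul_of_nonneg_left i4 hc10.le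
      linarith
    have i10 : ‖Pb ψ s p b (((v - t : ℝ) : ℂ) * I)‖ ≤ Real.exp (2 * e' * X) / (1 + |v|) ^ 6 := by
      refine i6.trans ?_
      calc CM * Real.exp (2 * Real.pi * Real.cos p * L) * Real.exp (-(c1 * |v - t|)) ≤
            CM * Real.exp (e' * X) * (K6 / (1 + |v|) ^ 6) := by gcongr
        _ = (CM * K6) * Real.exp (e' * X) / (1 + |v|) ^ 6 := by ring
        _ ≤ Real.exp (e' * X) * Real.exp (e' * X) / (1 + |v|) ^ 6 := by gcongr
        _ = _ := by
            rw [← Real.exp_add]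
            congr 2
            ring
    calc _ ≤ Real.exp (2 * e' * X) / (1 + |v|) ^ 6 + Real.exp (2 * e' * X) / (1 + |v|) ^ 6 := add_le_add i10 le_rfl
      _ = _ := by ring
  refine ⟨Fn a T n, Fn_Hn ha0 T n, fun w hw => ?_⟩
  have htail := tail_bound ha1 hT1 hM0 hM (by positivity) hδ' w
  have j1 : 16 * K0 * a ^ 2 * (2 * Real.exp (2 * e' * X)) * Real.exp (a * |w.re|) ≤ Real.exp (3 * e' * X) := by
    have j2 : Real.exp (a * |w.re|) ≤ Real.exp a := Real.exp_le_exp.2 (by nlinarith)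
    have hK0 := K0_nonneg
    calc 16 * K0 * a ^ 2 * (2 * Real.exp (2 * e' * X)) * Real.exp (a * |w.re|) ≤
          16 * K0 * a ^ 2 * (2 * Real.exp (2 * e' * X)) * Real.exp a := by gcongr
      _ = (32 * K0 * a ^ 2 * Real.exp a) * Real.exp (2 * e' * X) := by ring
      _ ≤ Real.exp (e' * X) * Real.exp (2 * e' * X) := mul_le_mul_of_nonneg_right h3 (Real.exp_pos _).le
      _ = _ := by
          rw [← Real.exp_add]
          congr 1
          ring
  have j3 : ‖TT T w - TT (Fn a T n) w‖ ≤ Real.exp (3 * e' * X) / (1 + ‖w‖) ^ 2 :=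
    htail.trans (div_le_div_of_nonneg_right j1 (by positivity))
  have j4 : ‖TT T w - Pb ψ s p b (w - t * I)‖ ≤ Real.exp (3 * e' * X) / (1 + ‖w‖) ^ 2 := by
    refine (hErr w hw).trans ?_
    refine div_le_div₀ (Real.exp_pos _).le (Real.exp_le_exp.2 ?_) (by positivity) ?_
    · nlinarith
    · exact pow_le_pow_right₀ (by linarith [norm_nonneg w]) (by norm_num)
  have e : TT (Fn a T n) w - Pb ψ s p b (w - t * I) = (TT T w - Pb ψ s p b (w - t * I)) - (TT T w - TT (Fn a T n) w) := by ring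
  rw [e]
  calc ‖(TT T w - Pb ψ s p b (w - t * I)) - (TT T w - TT (Fn a T n) w)‖ ≤
        Real.exp (3 * e' * X) / (1 + ‖w‖) ^ 2 + Real.exp (3 * e' * X) / (1 + ‖w‖) ^ 2 := (norm_sub_le _ _).trans (add_le_add j4 j3)
    _ = 2 * Real.exp (3 * e' * X) / (1 + ‖w‖) ^ 2 := by ring
    _ ≤ Real.exp (ε * X) / (1 + ‖w‖) ^ 2 := by
        refine div_le_div_of_nonneg_right ?_ (by positivity)
        calc 2 * Real.exp (3 * e' * X) ≤ Real.exp (e' * X) * Real.exp (3 * e' * X) := mul_le_mul_of_nonneg_right h4 (Real.exp_pos _).le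
          _ = Real.exp (4 * e' * X) := by
              rw [← Real.exp_add]
              congr 1
              ring
          _ ≤ _ := Real.exp_le_exp.2 (by rw [he']; nlinarith)

end Pool.Agent.Q79.EW
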